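import Pool.Agent.H67.PI.Emb

/-!
Every finitely generated associative PI algebra, over an arbitrary field, embeds into a
2-generated associative PI algebra.

Proof: let `A` be generated by `a 0, ..., a (k-1)` and let `C` be the unitization of `A`. In
`M_N(C)`, `N = 4 k + 20`, take the cyclic permutation matrix `x` and the diagonal matrix `y` with
entries `1, 1, 1` at the places `0, 1, 3` and `a j` at the place `4 j + 8`. The non-unital
subalgebra `B` generated by `x` and `y` contains a diagonal matrix unit `e` and all the
`(a j) e`, hence the image of `A`. As `A` is PI, the matrices over `C` satisfy a multilinear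
identity (codimension count), and so does `B`.
-/

set_option autoImplicit false

namespace Pool.Agent.W425.Withdrawn.AssocTwoGenerated

open Pool.Agent.H67.PI

universe u v

/-- An associative algebra `A` over a field `F` (not assumed unital) is PI: some nonzero
noncommutative polynomial `f` with zero constant term vanishes on `A`. (It is evaluated in the
algebra `F ⊕ A` obtained by adjoining a unit.) -/
def IsPI (F : Type u) [Field F] (A : Type v) [NonUnitalRing A] [Module F A]
    [IsScalarTower F A A] [SMulCommClass F A A] : Prop :=
  ∃ (n : ℕ) (f : FreeAlgebra F (Fin n)), f ≠ 0 ∧ FreeAlgebra.algebraMapInv f = 0 ∧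
    ∀ a : Fin n → A,
      FreeAlgebra.lift F (fun i => (Unitization.inr (a i) : Unitization F A)) f = 0

/-- The algebra `A` is generated by `k` of its elements. -/
def IsGeneratedBy (F : Type u) [Field F] (A : Type v) [NonUnitalRing A] [Module F A]
    [IsScalarTower F A A] [SMulCommClass F A A] (k : ℕ) : Prop :=
  ∃ a : Fin k → A, NonUnitalAlgebra.adjoin F (Set.range a) = ⊤

/-- **Every finitely generated associative PI algebra over a field embeds into a 2-generated
associative PI algebra.** -/
theorem result (F : Type u) [Field F] (A : Type v) [NonUnitalRing A] [Module F A]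
    [IsScalarTower F A A] [SMulCommClass F A A] (k : ℕ) (hA : IsPI F A)
    (hk : IsGeneratedBy F A k) :
    ∃ (B : Type (max u v)) (_ : NonUnitalRing B) (_ : Module F B) (_ : IsScalarTower F B B)
      (_ : SMulCommClass F B B) (φ : A →ₙₐ[F] B),
      IsPI F B ∧ IsGeneratedBy F B 2 ∧ Function.Injective φ := by
  classical
  obtain ⟨n, f, hf, -, hfA⟩ := hA
  obtain ⟨a, ha⟩ := hk
  set N : ℕ := 4 * k + 20 with hN
  have : NeZero N := ⟨by omega⟩
  obtain ⟨m, α, hm, hα, hMα⟩ := unitization_matrix f hf hfA (ZMod N)
  let M := Matrix (ZMod N) (ZMod N) (Unitization F A)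
  let a' : ℕ → Unitization F A := fun j => if hj : j < k then Unitization.inr (a ⟨j, hj⟩) else 0
  let x : M := P (Unitization F A) N 1
  let y : M := Matrix.diagonal (h N a')
  let B := NonUnitalAlgebra.adjoin F ({x, y} : Set M)
  let φ : A →ₙₐ[F] M :=
    { toFun := fun b => Matrix.single 0 0 (Unitization.inr b)
      map_smul' := by
        intro t b
        rw [Unitization.inr_smul]
        exact (Matrix.smul_single t 0 0 _).symm
      map_zero' := by simp
      map_add' := by
        intro b b'
        rw [Unitization.inr_add, Matrix.single_add]
      map_mul' := by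
        intro b b'
        rw [Unitization.inr_mul, Matrix.single_mul_single_same] }
  have hφinj : Function.Injective φ := by
    intro b b' hbb
    have h1 := congrArg (fun X : M => X 0 0) hbb
    have h2 : (Unitization.inr b : Unitization F A) = Unitization.inr b' := by
      simpa [φ] using h1
    exact Unitization.inr_injective h2
  have hx : x ∈ B := NonUnitalAlgebra.subset_adjoin F (by simp)
  have hy : y ∈ B := NonUnitalAlgebra.subset_adjoin F (by simp)
  have hφB : ∀ b : A, φ b ∈ B := by
    have h1 : NonUnitalAlgebra.adjoin F (Set.range a) ≤ B.comap φ := by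
      rw [NonUnitalAlgebra.adjoin_le_iff]
      rintro _ ⟨j, rfl⟩
      have h3 := assoc_gen F (N := N) (by omega) (by omega) a' B hx hy j.val (by omega)
      have h4 : a' j.val = Unitization.inr (a j) := by
        simp [a']
      rw [h4] at h3
      exact h3
    intro b
    have h2 : b ∈ NonUnitalAlgebra.adjoin F (Set.range a) := by
      rw [ha]; trivial
    exact h1 h2
  let ψ : A →ₙₐ[F] B := NonUnitalAlgHom.codRestrict φ B hφB
  refine ⟨B, inferInstance, inferInstance, inferInstance, inferInstance, ψ, ?_, ?_, ?_⟩
  · exact ⟨m, mlp α, mlp_ne_zero α hα, mlp_const hm α, fun b => mlp_sub B hm α hMα b⟩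
  · exact adjoin_two x y
  · intro b b' hbb
    apply hφinj
    have h1 := congrArg (Subtype.val) hbb
    exact h1

end Pool.Agent.W425.Withdrawn.AssocTwoGenerated
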